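import Mathlib

namespace Pool.Agent.Results.MP_b44554_al.Depends

/-- Terms over operation symbols of arities ar and variables V. -/
inductive Tm {I : Type} (ar : I → ℕ) (V : Type) : Type
  | var : V → Tm ar V
  | app (i : I) : (Fin (ar i) → Tm ar V) → Tm ar V

/-- Value of a term. -/
def Tm.ev {I V A : Type} {ar : I → ℕ} (op : ∀ i, (Fin (ar i) → A) → A) (x : V → A) : Tm ar V → A
  | .var v => x v
  | .app i ts => op i fun j => (ts j).ev op x

/-- An algebra: a nonempty set with basic operations. -/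
structure Alg where
  A : Type
  ne : Nonempty A
  I : Type
  ar : I → ℕ
  op : ∀ i, (Fin (ar i) → A) → A

/-- A strong Maltsev condition. -/
structure Cond where
  m : ℕ
  ar : Fin m → ℕ
  n : ℕ
  ids : List (Tm ar (Fin n) × Tm ar (Fin n))

/-- The algebra satisfies the condition on the set F of tuples. -/
def SatOn (B : Alg) (C : Cond) (F : Set (Fin C.n → B.A)) : Prop :=
  ∃ t : ∀ i, Tm B.ar (Fin (C.ar i)), ∀ x ∈ F, ∀ p ∈ C.ids,
    p.1.ev (fun i v => (t i).ev B.op v) x = p.2.ev (fun i v => (t i).ev B.op v) x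

/-- The local-global property. -/
def LocalGlobal (C : Cond) : Prop :=
  ∃ k, 1 ≤ k ∧ ∀ B : Alg, (∃ F : Finset (Fin C.n → B.A), F.card = k) →
    (∀ F : Finset (Fin C.n → B.A), F.card = k → SatOn B C F) →
    ∀ F : Finset (Fin C.n → B.A), SatOn B C F

def Tm.sub {I V W : Type} {ar : I → ℕ} (s : V → Tm ar W) : Tm ar V → Tm ar W
  | .var v => s v
  | .app i ts => .app i fun j => (ts j).sub s

theorem ev_sub {I V W A : Type} {ar : I → ℕ} (op : ∀ i, (Fin (ar i) → A) → A) (x : W → A)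
    (s : V → Tm ar W) (t : Tm ar V) : (t.sub s).ev op x = t.ev op fun v => (s v).ev op x := by
  induction t with
  | var v => rfl
  | app i ts ih => simp only [Tm.sub, Tm.ev, ih]

def C1 : Cond := ⟨1, fun _ => 1, 2, [(.app 0 fun _ => .var 0, .app 0 fun _ => .var 1)]⟩

def L2 : List (Tm (fun _ : Fin 2 => 2) (Fin 3) × Tm (fun _ : Fin 2 => 2) (Fin 3)) :=
  [(.app 0 ![.var 0, .var 1], .app 0 ![.var 0, .var 2]),
   (.app 0 ![.var 0, .app 1 ![.var 0, .var 1]], .app 0 ![.var 1, .app 1 ![.var 1, .var 0]])]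

def C2 : Cond := ⟨2, fun _ => 2, 3, L2⟩

theorem sat1 {B : Alg} {F : Set (Fin 2 → B.A)} : SatOn B C1 F ↔
    ∃ t : Tm B.ar (Fin 1), ∀ x ∈ F, t.ev B.op (fun _ => x 0) = t.ev B.op fun _ => x 1 :=
  ⟨fun ⟨t, h⟩ => ⟨t ⟨0, Nat.one_pos⟩, fun x hx => h x hx _ List.mem_cons_self⟩,
    fun ⟨t, h⟩ => ⟨fun _ => t, fun x hx p hp => by
      obtain rfl := List.mem_singleton.1 hp
      exact h x hx⟩⟩

theorem ev2 {I V A : Type} (op : ∀ _ : I, (Fin 2 → A) → A) (x : V → A) (i : I)
    (a b : Tm (fun _ : I => 2) V) :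
    (Tm.app (ar := fun _ : I => 2) i ![a, b]).ev op x = op i ![a.ev op x, b.ev op x] := by
  simp only [Tm.ev]; congr 1; ext j; fin_cases j <;> rfl

theorem evL {A : Type} (op : Fin 2 → (Fin 2 → A) → A) (x : Fin 3 → A) :
    (∀ p ∈ L2, p.1.ev op x = p.2.ev op x) ↔ op 0 ![x 0, x 1] = op 0 ![x 0, x 2] ∧
      op 0 ![x 0, op 1 ![x 0, x 1]] = op 0 ![x 1, op 1 ![x 1, x 0]] := by
  simp only [L2, List.mem_cons, List.not_mem_nil, or_false, forall_eq_or_imp, forall_eq, ev2]
  rfl

theorem sat2 {B : Alg} {F : Set (Fin 3 → B.A)} : SatOn B C2 F ↔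
    ∃ u v : Tm B.ar (Fin 2), ∀ x ∈ F, u.ev B.op ![x 0, x 1] = u.ev B.op ![x 0, x 2] ∧
      u.ev B.op ![x 0, v.ev B.op ![x 0, x 1]] = u.ev B.op ![x 1, v.ev B.op ![x 1, x 0]] :=
  ⟨fun ⟨t, h⟩ => ⟨t (0 : Fin 2), t (1 : Fin 2), fun x hx => (evL _ x).1 (h x hx)⟩,
    fun ⟨u, v, h⟩ => ⟨fun i : Fin 2 => if i = 0 then u else v, fun x hx => (evL _ x).2 (h x hx)⟩⟩

def Idem (N : ℕ) : Alg :=
  ⟨Fin (N + 2), ⟨0⟩, {f : (Fin 2 → Fin (N + 2)) → Fin (N + 2) // ∀ a, f (fun _ => a) = a},
    fun _ => 2, fun f => f.1⟩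

theorem idem_ev (N : ℕ) {V : Type} (t : Tm (Idem N).ar V) (a : (Idem N).A) :
    t.ev (Idem N).op (fun _ => a) = a := by
  induction t with
  | var v => rfl
  | app i ts ih => simp only [Tm.ev, ih]; exact i.2 a

theorem result : ∃ C₁ C₂ : Cond, (∀ B : Alg, SatOn B C₁ Set.univ ↔ SatOn B C₂ Set.univ) ∧
    LocalGlobal C₁ ∧ ¬ LocalGlobal C₂ ∧
    (∃ B : Alg, Nontrivial B.A ∧ SatOn B C₁ Set.univ) ∧ ∃ B : Alg, ¬ SatOn B C₁ Set.univ := by
  have hid : ∀ N, ¬ SatOn (Idem N) C2 Set.univ := by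
    intro N h
    obtain ⟨u, v, h⟩ := sat2.1 h
    have e : ∀ a b, u.ev (Idem N).op ![a, b] = a := fun a b => by
      have := (h ![a, b, a] trivial).1
      refine this.trans (Eq.trans (congrArg (fun w => u.ev (Idem N).op w) ?_) (idem_ev N u a))
      ext j; fin_cases j <;> rfl
    have := (h ![(0 : Fin (N + 2)), (1 : Fin (N + 2)), (0 : Fin (N + 2))] trivial).2
    rw [e, e] at this
    exact absurd this (Fin.zero_ne_one (n := N))
  have heq : ∀ B : Alg, SatOn B C1 Set.univ ↔ SatOn B C2 Set.univ := by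
    intro B
    rw [sat1, sat2]
    constructor
    · rintro ⟨t, h⟩
      refine ⟨t.sub fun _ => .var 0, .var 0, fun x _ => ?_⟩
      simp only [ev_sub, Tm.ev]
      exact ⟨rfl, h ![x 0, x 1] trivial⟩
    · rintro ⟨u, v, h⟩
      refine ⟨u.sub fun _ => .var 0, fun x _ => ?_⟩
      simp only [ev_sub, Tm.ev]
      have e : ∀ a b, u.ev B.op ![a, b] = u.ev B.op fun _ => a := fun a b => by
        have := (h ![a, b, a] trivial).1
        refine this.trans (congrArg (fun w => u.ev B.op w) ?_)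
        ext j; fin_cases j <;> rfl
      have := (h ![x 0, x 1, x 0] trivial).2
      rwa [e, e] at this
  refine ⟨C1, C2, heq, ⟨1, le_rfl, fun B _ h F => ?_⟩, ?_, ?_, Idem 0, fun h => hid 0 ((heq _).1 h)⟩
  · classical
    rw [sat1]
    induction F using Finset.induction_on with
    | empty => exact ⟨.var 0, fun x hx => absurd hx (Finset.notMem_empty x)⟩
    | insert y F _ ih =>
      obtain ⟨t, ht⟩ := ih
      obtain ⟨s, hs⟩ := sat1.1 (h {![t.ev B.op fun _ => y (0 : Fin 2), t.ev B.op fun _ => y (1 : Fin 2)]}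
        (Finset.card_singleton _))
      refine ⟨s.sub fun _ => t, fun x hx => ?_⟩
      simp only [ev_sub]
      rcases Finset.mem_insert.1 hx with rfl | hx
      · exact hs _ (Finset.mem_singleton_self _)
      · rw [ht x hx]
  · rintro ⟨k, -, h⟩
    refine hid (3 * k) ?_
    have : Fintype (Idem (3 * k)).A := inferInstanceAs (Fintype (Fin (3 * k + 2)))
    have := h (Idem (3 * k)) ?_ ?_ (Finset.univ : Finset (Fin 3 → Fin (3 * k + 2)))
    · obtain ⟨t, ht⟩ := this
      exact ⟨t, fun x _ => ht x (Finset.mem_univ (α := Fin 3 → Fin (3 * k + 2)) x)⟩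
    · have hk : k ≤ (Finset.univ : Finset (Fin 3 → Fin (3 * k + 2))).card := by
        simp only [Finset.card_univ, Fintype.card_fun, Fintype.card_fin]
        exact le_trans (by omega) (Nat.le_self_pow (by omega) (3 * k + 2))
      obtain ⟨F, -, hF⟩ := Finset.exists_subset_card_eq hk
      exact ⟨F, hF⟩
    · intro (F : Finset (Fin 3 → Fin (3 * k + 2))) hF
      obtain ⟨z, hz⟩ : ∃ z : Fin (3 * k + 2), z ∉ F.biUnion fun x => Finset.univ.image x := by
        by_contra hc
        push Not at hc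
        have h1 := Finset.card_le_card (fun z _ => hc z : Finset.univ ⊆ _)
        have h2 := Finset.card_biUnion_le_card_mul F (fun x => Finset.univ.image x) 3
          fun x _ => Finset.card_image_le.trans (by simp)
        simp only [Finset.card_univ, Fintype.card_fin] at h1
        have hF : F.card = k := hF
        omega
      simp only [Finset.mem_biUnion, Finset.mem_image, Finset.mem_univ, true_and, not_exists,
        not_and] at hz
      refine sat2.2 ⟨.app ⟨fun w => if w 1 = z then z else w 0, fun a => ?_⟩ .var,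
        .app ⟨fun w => if w 0 = w 1 then w 0 else z, fun a => by simp⟩ .var, fun x hx => ?_⟩
      · by_cases h : a = z <;> simp [h]
      · have h1 := hz x hx 1
        have h2 := hz x hx 2
        simp only [Tm.ev, Idem, Matrix.cons_val_zero, Matrix.cons_val_one, h1, h2, if_false,
          true_and]
        by_cases e : x 0 = x 1
        · simp [e]
        · simp only [ite_eq_right_iff]
          exact (if_pos fun h => absurd h e).trans (if_pos fun h => absurd (Eq.symm h) e).symm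
  · exact ⟨⟨Bool, ⟨true⟩, Unit, fun _ => 1, fun _ _ => true⟩, inferInstanceAs (Nontrivial Bool),
      sat1.2 ⟨.app () .var, fun _ _ => rfl⟩⟩

end Pool.Agent.Results.MP_b44554_al.Depends
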